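import Pool.Agent.Q88.Scott.Data
import Mathlib.Data.Matrix.Mul
import Mathlib.LinearAlgebra.Matrix.NonsingularInverse
import Mathlib.GroupTheory.GroupAction.Basic

/-! # The group of automorphisms of the matrix -/

namespace Pool.Agent.Q88.Scott

open Finset

/-- the unimodular matrix -/
def M : Matrix (Fin 203) (Fin 203) ℤ := fun y x => (entN tabM y x : ℤ) - 1

/-- its inverse -/
def N : Matrix (Fin 203) (Fin 203) ℤ := fun x y => (entN tabN y x : ℤ) - 1

theorem shN_lt {k x : ℕ} (hx : x < 203) : shN k x < 203 := by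
  unfold shN; omega

theorem shN_div (k x : ℕ) : shN k x / 29 = x / 29 := by
  unfold shN; omega

theorem shN_mod (k x : ℕ) : shN k x % 29 = (x % 29 + k) % 29 := by
  unfold shN; omega

/-- the shift by `k` as a permutation -/
def shP (k : ℕ) : Equiv.Perm (Fin 203) where
  toFun x := ⟨shN k x, shN_lt x.2⟩
  invFun x := ⟨shN (29 - k % 29) x, shN_lt x.2⟩
  left_inv x := by
    apply Fin.ext
    simp only [shN]
    omega
  right_inv x := by
    apply Fin.ext
    simp only [shN]
    omega

theorem ent_shN (t k y x : ℕ) : entN t (shN k y) (shN k x) = entN t y x := by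
  unfold entN
  rw [shN_div, shN_div, shN_mod, shN_mod]
  have : ((x % 29 + k) % 29 + 29 - (y % 29 + k) % 29) % 29 = (x % 29 + 29 - y % 29) % 29 := by
    omega
  rw [this]

/-- the first involution -/
def pA : Equiv.Perm (Fin 203) where
  toFun x := ⟨look tabA x, by
    have := allB_spec _ _ chkA x x.2
    simp only [Bool.and_eq_true] at this
    simpa using this.2⟩
  invFun x := ⟨look tabA x, by
    have := allB_spec _ _ chkA x x.2
    simp only [Bool.and_eq_true] at this
    simpa using this.2⟩
  left_inv x := by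
    have := allB_spec _ _ chkA x x.2
    simp only [Bool.and_eq_true] at this
    apply Fin.ext
    simpa using this.1
  right_inv x := by
    have := allB_spec _ _ chkA x x.2
    simp only [Bool.and_eq_true] at this
    apply Fin.ext
    simpa using this.1

/-- the second involution -/
def pB : Equiv.Perm (Fin 203) where
  toFun x := ⟨look tabB x, by
    have := allB_spec _ _ chkB x x.2
    simp only [Bool.and_eq_true] at this
    simpa using this.2⟩
  invFun x := ⟨look tabB x, by
    have := allB_spec _ _ chkB x x.2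
    simp only [Bool.and_eq_true] at this
    simpa using this.2⟩
  left_inv x := by
    have := allB_spec _ _ chkB x x.2
    simp only [Bool.and_eq_true] at this
    apply Fin.ext
    simpa using this.1
  right_inv x := by
    have := allB_spec _ _ chkB x x.2
    simp only [Bool.and_eq_true] at this
    apply Fin.ext
    simpa using this.1

theorem shP_val (k : ℕ) (x : Fin 203) : (shP k x : ℕ) = shN k x := rfl
theorem pA_val (x : Fin 203) : (pA x : ℕ) = look tabA x := rfl
theorem pB_val (x : Fin 203) : (pB x : ℕ) = look tabB x := rfl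

theorem M_shP (k : ℕ) (y x : Fin 203) : M (shP k y) (shP k x) = M y x := by
  simp only [M, shP_val, ent_shN]

theorem M_p (y x : Fin 203) : M (pB y) (pA x) = M y x := by
  have h1 := allB_spec _ _ chkInv y y.2
  have h2 := allB_spec _ _ h1 x x.2
  have h3 : entN tabM (look tabB y) (look tabA x) = entN tabM y x := by simpa using h2
  simp only [M, pA_val, pB_val, h3]

theorem sumB_eq (f : ℕ → ℕ) (n : ℕ) : sumB f n = ∑ i ∈ range n, f i := by
  induction n with
  | zero => simp [sumB]
  | succ n ih => rw [sumB, ih, sum_range_succ, add_comm]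

theorem sumB_fin (f : ℕ → ℕ) : sumB f 203 = ∑ i : Fin 203, f i := by
  rw [sumB_eq, ← Fin.sum_univ_eq_sum_range]

theorem sumM_le : ∀ r < 7, 203 ≤ sumB (fun x => entN tabM (29 * r) x) 203 := by decide +kernel

theorem MN_block (r z : ℕ) (hr : r < 7) (hz : z < 203) :
    ∑ x : Fin 203, ((entN tabM (29 * r) x : ℤ) - 1) * ((entN tabN z x : ℤ) - 1) =
      if 29 * r = z then 1 else 0 := by
  have h1 := allB_spec _ _ chkProd r hr
  have h2 := allB_spec _ _ h1 z hz
  have h3 : sumB (fun x => entN tabM (29 * r) x * entN tabN z x) 203 =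
      sumB (fun x => entN tabM (29 * r) x) 203 + sumB (fun x => entN tabN z x) 203 +
        (if 29 * r = z then 1 else 0) - 203 := by simpa using h2
  have hM : 203 ≤ sumB (fun x => entN tabM (29 * r) x) 203 := sumM_le r hr
  rw [sumB_fin, sumB_fin, sumB_fin] at h3
  rw [sumB_fin] at hM
  have h4 : (∑ x : Fin 203, ((entN tabM (29 * r) x : ℤ) - 1) * ((entN tabN z x : ℤ) - 1)) =
      (∑ x : Fin 203, (entN tabM (29 * r) x * entN tabN z x : ℕ) : ℤ) -
      (∑ x : Fin 203, (entN tabM (29 * r) x : ℕ) : ℤ) -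
      (∑ x : Fin 203, (entN tabN z x : ℕ) : ℤ) + 203 := by
    have h5 : (203 : ℤ) = ∑ _x : Fin 203, (1 : ℤ) := by simp
    rw [h5, ← sum_sub_distrib, ← sum_sub_distrib, ← sum_add_distrib]
    refine sum_congr rfl fun x _ => ?_
    push_cast
    ring
  rw [h4]
  have h6 : ((∑ x : Fin 203, entN tabM (29 * r) x * entN tabN z x : ℕ) : ℤ) =
      ((∑ x : Fin 203, entN tabM (29 * r) x : ℕ) : ℤ) + ((∑ x : Fin 203, entN tabN z x : ℕ) : ℤ) +
        (if 29 * r = z then 1 else 0) - 203 := by
    rw [h3]
    have hle : 203 ≤ (∑ x : Fin 203, entN tabM (29 * r) x) + (∑ x : Fin 203, entN tabN z x) +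
      (if 29 * r = z then 1 else 0) := by omega
    rw [Nat.cast_sub hle]
    push_cast
    split_ifs <;> simp
  push_cast at h6 ⊢
  rw [h6]
  ring

theorem sh_base (y : ℕ) : shN (y % 29) (29 * (y / 29)) = y := by
  unfold shN; omega

theorem MN : M * N = 1 := by
  ext y z
  rw [Matrix.mul_apply, Matrix.one_apply]
  -- shift back
  have hy : y = shP (y % 29 : ℕ) ⟨29 * (y / 29 : ℕ), by have := y.2; omega⟩ := by
    apply Fin.ext
    rw [shP_val]
    exact (sh_base y).symm
  have h1 : ∑ x, M y x * N x z = ∑ x, M y (shP (y % 29 : ℕ) x) * N (shP (y % 29 : ℕ) x) z :=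
    (Equiv.sum_comp (shP (y % 29 : ℕ)) (fun x => M y x * N x z)).symm
  rw [h1]
  have h2 : ∀ x, M y (shP (y % 29 : ℕ) x) = (entN tabM (29 * (y / 29 : ℕ)) x : ℤ) - 1 := by
    intro x
    have h5 := M_shP (y % 29 : ℕ) ⟨29 * (y / 29 : ℕ), by have := y.2; omega⟩ x
    rw [← hy] at h5
    rw [h5]
    rfl
  have h3 : ∀ x, N (shP (y % 29 : ℕ) x) z = (entN tabN (shN (29 - y % 29 % 29) z) x : ℤ) - 1 := by
    intro x
    have h4 : shN (y % 29) (shN (29 - y % 29 % 29) z) = z := by
      have := (shP (y % 29 : ℕ)).right_inv z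
      exact congrArg Fin.val this
    have h5 : entN tabN z (shN (y % 29) x) = entN tabN (shN (29 - y % 29 % 29) z) x := by
      conv_lhs => rw [← h4]
      rw [ent_shN]
    simp only [N, shP_val, h5]
  rw [sum_congr rfl fun x _ => by rw [h2, h3]]
  rw [MN_block (y / 29) _ (by have := y.2; omega) (shN_lt z.2)]
  congr 1
  apply propext
  constructor
  · intro h
    apply Fin.ext
    have h4 : shN (y % 29) (shN (29 - y % 29 % 29) z) = z := by
      have := (shP (y % 29 : ℕ)).right_inv z
      exact congrArg Fin.val this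
    rw [← h4, ← h, sh_base y]
  · rintro rfl
    have h4 : shN (29 - y % 29 % 29) (shN (y % 29) (29 * (y / 29 : ℕ))) = 29 * (y / 29 : ℕ) := by
      have := (shP (y % 29 : ℕ)).left_inv ⟨29 * (y / 29 : ℕ), by have := y.2; omega⟩
      exact congrArg Fin.val this
    rw [sh_base y] at h4
    exact h4.symm

theorem NM : N * M = 1 := mul_eq_one_comm.mp MN

/-- The group of pairs of permutations preserving the matrix. -/
def G : Subgroup (Equiv.Perm (Fin 203) × Equiv.Perm (Fin 203)) where
  carrier := {g | ∀ y x, M (g.2 y) (g.1 x) = M y x}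
  one_mem' := fun _ _ => rfl
  mul_mem' := by
    intro g h hg hh y x
    change M (g.2 (h.2 y)) (g.1 (h.1 x)) = M y x
    rw [hg, hh]
  inv_mem' := by
    intro g hg y x
    have := hg (g.2⁻¹ y) (g.1⁻¹ x)
    simpa using this.symm

theorem mem_G {g : Equiv.Perm (Fin 203) × Equiv.Perm (Fin 203)} :
    g ∈ G ↔ ∀ y x, M (g.2 y) (g.1 x) = M y x := Iff.rfl

/-- the shift in the group -/
def gS (k : ℕ) : G := ⟨(shP k, shP k), fun y x => M_shP k y x⟩

/-- the involution in the group -/
def gW : G := ⟨(pA, pB), fun y x => M_p y x⟩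

theorem faithful (g : G) (h : g.1.1 = 1) : g = 1 := by
  have h1 : g.1.2 = 1 := by
    ext y
    have h2 : ∀ x, M (g.1.2 y) x = M y x := by
      intro x
      have := g.2 y x
      rwa [h] at this
    have h3 : ∑ x, M (g.1.2 y) x * N x y = 1 := by
      rw [sum_congr rfl fun x _ => by rw [h2 x]]
      have := congrFun (congrFun MN y) y
      rw [Matrix.mul_apply, Matrix.one_apply_eq] at this
      exact this
    have h4 := congrFun (congrFun MN (g.1.2 y)) y
    rw [Matrix.mul_apply, h3, Matrix.one_apply] at h4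
    by_contra hne
    rw [if_neg (fun h5 => hne (by rw [h5]; rfl))] at h4
    exact one_ne_zero h4
  exact Subtype.ext (Prod.ext h h1)

theorem trans1 (x : Fin 203) : ∃ g : G, g.1.1 0 = x := by
  obtain ⟨k, hk, hk2⟩ := chkTrA (x / 29) (by have := x.2; omega)
  refine ⟨gS ((x % 29 + 29 - look tabA k % 29) % 29) * gW * gS k, ?_⟩
  apply Fin.ext
  change shN ((x % 29 + 29 - look tabA k % 29) % 29) (look tabA (shN k 0)) = x
  have h0 : shN k 0 = k := by unfold shN; omega
  rw [h0]
  unfold shN
  have := x.2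
  omega

theorem trans2 (x : Fin 203) : ∃ g : G, g.1.2 0 = x := by
  obtain ⟨k, hk, hk2⟩ := chkTrB (x / 29) (by have := x.2; omega)
  refine ⟨gS ((x % 29 + 29 - look tabB k % 29) % 29) * gW * gS k, ?_⟩
  apply Fin.ext
  change shN ((x % 29 + 29 - look tabB k % 29) % 29) (look tabB (shN k 0)) = x
  have h0 : shN k 0 = k := by unfold shN; omega
  rw [h0]
  unfold shN
  have := x.2
  omega

/-- The stabilizer of `0` in the second action has no fixed point in the first action. -/
theorem no_fix (x : Fin 203) : ∃ g : G, g.1.2 0 = 0 ∧ g.1.1 x ≠ x := by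
  have h1 := allB_spec _ _ chkFix x x.2
  simp only [Bool.or_eq_true, Bool.not_eq_true', beq_eq_false_iff_ne] at h1
  rcases h1 with h1 | h1
  · refine ⟨gS 23 * gW * gS 1, ?_, ?_⟩
    · exact Fin.ext chkStab1
    · intro h
      exact h1 (congrArg Fin.val h)
  · refine ⟨gS 26 * gW * gS 2, ?_, ?_⟩
    · exact Fin.ext chkStab2
    · intro h
      exact h1 (congrArg Fin.val h)

end Pool.Agent.Q88.Scott
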